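import Pool.Agent.Helper55.OS.StatBridge
import Pool.Agent.Helper55.OS.FinalK

/-!
# MP_28932f_an: Axiom A is equivalent to hyperbolic nonperiodic recurrence

For a `C^∞` Omega-stable diffeomorphism `f` of a compact smooth manifold `M`, Axiom A is equivalent to the hyperbolicity
of the closure `NR` of the set of the recurrent points that are not periodic.
-/

open Set Topology Manifold ContDiff

namespace Pool.Agent.Helper55.Shelf.HyperbolicRecurrence

open Pool.Agent.Helper55.OS.Stat

theorem result (d : ℕ) (M : Type) [TopologicalSpace M] [T2Space M] [CompactSpace M]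
    [ChartedSpace (EuclideanSpace ℝ (Fin d)) M] [IsManifold (𝓡 d) ∞ M]
    (ρ : Metric (EuclideanSpace ℝ (Fin d)) M) (f : Dif (EuclideanSpace ℝ (Fin d)) M)
    (hf : OmegaStable f) : AxiomA ρ f ↔ HypOn ρ f (NR (map f)) := by
  have hs : Pool.Agent.Helper55.OS.OmegaStable (d := d) f := hf
  rw [show AxiomA ρ f ↔ Pool.Agent.Helper55.OS.AxiomA (d := d) ρ f from
    Pool.Agent.Helper55.OS.axiomA_bridge ρ f, show HypOn ρ f (NR (map f)) ↔
    Pool.Agent.Helper55.OS.HypOn (d := d) ρ f (Pool.Agent.Helper55.OS.NR (f : M → M)) from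
    Pool.Agent.Helper55.OS.hypOn_bridge ρ f _]
  constructor
  · exact Pool.Agent.Helper55.OS.hypNR_of_axiomA ρ f
  · intro h
    haveI : SecondCountableTopology M :=
      ChartedSpace.secondCountable_of_sigmaCompact (EuclideanSpace ℝ (Fin d)) M
    letI : MetricSpace M := TopologicalSpace.metrizableSpaceMetric M
    exact Pool.Agent.Helper55.OS.axiomA_of_hypNR ρ f hs h

end Pool.Agent.Helper55.Shelf.HyperbolicRecurrence
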